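import Pool.Agent.H737R3.FatZero

/-!
Demailly's inequality for fat point schemes over an arbitrary field (rational points).
-/

set_option autoImplicit false

universe u

namespace Pool.Agent.H737R3

open MvPolynomial Pool.Agent.Chud Pool.Agent.H580C

/-- extension of the base field -/
theorem lowW_map (K L : Type u) [Field K] [Field L] [Algebra K L] {n a : ℕ}
    {Z : Set (Fin (n + 1) → K)} {τ : (Fin (n + 1) → K) → ℕ} (hZ : LowW Z τ a)
    (τ' : (Fin (n + 1) → L) → ℕ)
    (hτ : ∀ v ∈ Z, τ v ≤ τ' (fun i => algebraMap K L (v i))) :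
    LowW ((fun v i => algebraMap K L (v i)) '' Z) τ' a := by
  classical
  intro F d hF0 hF hFv
  obtain ⟨c, hc⟩ := MvPolynomial.ne_zero_iff.1 hF0
  have hinj : LinearMap.ker (LinearMap.toSpanSingleton K L (coeff c F)) = ⊥ := by
    rw [LinearMap.ker_eq_bot']
    intro x hx
    rw [LinearMap.toSpanSingleton_apply] at hx
    exact (smul_eq_zero.1 hx).resolve_right hc
  obtain ⟨lam, hlam⟩ := LinearMap.exists_leftInverse_of_injective _ hinj
  have hlam1 : lam (coeff c F) = 1 := by
    have := LinearMap.congr_fun hlam 1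
    simpa using this
  set G : MvPolynomial (Fin (n + 1)) K := ∑ m ∈ F.support, monomial m (lam (coeff m F)) with hG
  have hcoeff : ∀ m, coeff m G = lam (coeff m F) := by
    intro m
    rw [hG, coeff_sum]
    by_cases hm : m ∈ F.support
    · rw [Finset.sum_eq_single m]
      · rw [coeff_monomial, if_pos rfl]
      · intro b _ hb
        rw [coeff_monomial, if_neg hb]
      · intro h
        exact absurd hm h
    · rw [notMem_support_iff.1 hm, map_zero]
      apply Finset.sum_eq_zero
      intro b hb
      rw [coeff_monomial, if_neg]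
      rintro rfl
      exact hm hb
  have hG0 : G ≠ 0 := by
    intro h
    have := hcoeff c
    rw [h, hlam1, coeff_zero] at this
    exact zero_ne_one this
  have hGh : G.IsHomogeneous d := by
    intro m hm
    apply hF
    intro h0
    apply hm
    rw [hcoeff, h0, map_zero]
  apply hZ G d hG0 hGh
  intro v hv
  rw [(t_HV K (n + 1) v G).2 (τ v)]
  intro b hb
  have h1 := ((t_HV L (n + 1) (fun i => algebraMap K L (v i)) F).2 _).1 (hFv _ ⟨v, hv, rfl⟩) b
    (lt_of_lt_of_le hb (hτ v hv))
  rw [TR_eval_hd t_HC L (n + 1) b _ F d hF] at h1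
  rw [TR_eval_hd t_HC K (n + 1) b v G d hGh]
  have h2 := congrArg lam h1
  rw [map_zero, map_sum] at h2
  rw [← h2]
  apply Finset.sum_congr rfl
  intro m' _
  rw [hcoeff]
  have h3 : (((∏ i, (m' i).choose (b i) : ℕ) : L) *
      ∏ i, (algebraMap K L (v i)) ^ (m' i - b i)) * coeff m' F =
      ((((∏ i, (m' i).choose (b i) : ℕ) : K) * ∏ i, v i ^ (m' i - b i)) : K) • coeff m' F := by
    rw [Algebra.smul_def, map_mul, map_natCast, map_prod]
    simp only [map_pow]
  rw [h3, map_smul, smul_eq_mul]

/-- **Demailly's inequality** for fat points (with coordinates in an arbitrary field). -/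
theorem demailly_fat (K : Type u) [Field K]
    (n t a m d : ℕ) (Z : Set (Fin (n + 1) → K)) (w : (Fin (n + 1) → K) → ℕ)
    (F : MvPolynomial (Fin (n + 1)) K)
    (hn : 1 ≤ n) (ht : 1 ≤ t) (hZf : Z.Finite) (hw : ∃ z ∈ Z, 1 ≤ w z) (hZ0 : ∀ v ∈ Z, v ≠ 0)
    (hlow : LowW Z (fun v => t * w v) a)
    (hF0 : F ≠ 0) (hFh : F.IsHomogeneous d) (hFv : ∀ v ∈ Z, F ∈ mI v ^ (m * w v)) :
    m * (a + n - 1) ≤ d * (t + n - 1) := by
  classical
  let L := AlgebraicClosure K
  let ι : (Fin (n + 1) → K) → (Fin (n + 1) → L) := fun v i => algebraMap K L (v i)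
  have hι : Function.Injective ι := by
    intro v v' h
    funext i
    exact (algebraMap K L).injective (congrFun h i)
  let w' : (Fin (n + 1) → L) → ℕ := fun u => if h : ∃ v, ι v = u then w h.choose else 0
  have hw' : ∀ v, w' (ι v) = w v := by
    intro v
    have h : ∃ x, ι x = ι v := ⟨v, rfl⟩
    have h1 : w' (ι v) = w h.choose := dif_pos h
    rw [h1, hι h.choose_spec]
  obtain ⟨z, hz, hwz⟩ := hw
  have hlow' : LowW (ι '' Z) (fun u => t * w' u) a :=
    lowW_map K L hlow (fun u => t * w' u) (fun v _ => by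
      change t * w v ≤ t * w' (ι v)
      rw [hw'])
  refine cdW L n t a m d (ι '' Z) w' (map (algebraMap K L) F) hn ht (hZf.image _)
    ⟨ι z, ⟨z, hz, rfl⟩, by rw [hw']; exact hwz⟩ ?_ hlow' ?_ (hFh.map _) ?_
  · rintro _ ⟨v, hv, rfl⟩ h0
    apply hZ0 v hv
    funext i
    have := congrFun h0 i
    exact (algebraMap K L).injective (by rw [Pi.zero_apply, map_zero]; exact this)
  · intro h0
    apply hF0
    exact map_injective _ (algebraMap K L).injective (by rw [h0, map_zero])
  · rintro _ ⟨v, hv, rfl⟩
    rw [hw']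
    have h1 : Ideal.map (map (algebraMap K L)) (mI v ^ (m * w v)) ≤ mI (ι v) ^ (m * w v) := by
      rw [Ideal.map_pow]
      apply Ideal.pow_right_mono
      rw [Ideal.map_le_iff_le_comap]
      intro x hx
      rw [Ideal.mem_comap]
      change eval (ι v) (map (algebraMap K L) x) = 0
      have h2 : eval v x = 0 := hx
      have h3 : (eval (ι v)).comp (map (algebraMap K L)) =
          (algebraMap K L).comp (eval v : MvPolynomial (Fin (n + 1)) K →+* K) := by
        apply MvPolynomial.ringHom_ext
        · intro r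
          simp
        · intro i
          simp [ι]
      have h4 := DFunLike.congr_fun h3 x
      rw [RingHom.comp_apply, RingHom.comp_apply, h2, map_zero] at h4
      exact h4
    exact h1 (Ideal.mem_map_of_mem _ (hFv v hv))

end Pool.Agent.H737R3
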