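import Pool.Agent.H580C.CH.All

/-!
Ideals of points of projective space and orders of vanishing of forms.
-/

set_option autoImplicit false

universe u

namespace Pool.Agent.H737R3

open MvPolynomial Pool.Agent.Chud Pool.Agent.H580C

section

variable {k : Type u} [Field k] {n : ℕ}

/-- the ideal generated by the linear forms which vanish at `p` -/
noncomputable def linI (p : Fin (n + 1) → k) : Ideal (MvPolynomial (Fin (n + 1)) k) :=
  Ideal.span {l | l.IsHomogeneous 1 ∧ eval p l = 0}

theorem linI_le_mI (p : Fin (n + 1) → k) : linI p ≤ mI p := by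
  unfold linI
  rw [Ideal.span_le]
  rintro l ⟨-, hl⟩
  exact hl

section graded

attribute [local instance] MvPolynomial.gradedAlgebra

theorem linI_homog (p : Fin (n + 1) → k) :
    (linI p).IsHomogeneous (homogeneousSubmodule (Fin (n + 1)) k) := by
  unfold linI
  apply Ideal.homogeneous_span
  rintro l ⟨hl, -⟩
  exact ⟨1, hl⟩

theorem linI_pow_homog (p : Fin (n + 1) → k) (m : ℕ) :
    ((linI p) ^ m).IsHomogeneous (homogeneousSubmodule (Fin (n + 1)) k) := by
  induction m with
  | zero =>
    rw [pow_zero, Ideal.one_eq_top]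
    exact Ideal.IsHomogeneous.top _
  | succ m ih =>
    rw [pow_succ]
    exact ih.mul (linI_homog p)

theorem component_mem (p : Fin (n + 1) → k) (m : ℕ) {f : MvPolynomial (Fin (n + 1)) k}
    (hf : f ∈ linI p ^ m) (d : ℕ) : homogeneousComponent d f ∈ linI p ^ m := by
  exact homogeneousComponent_mem_of_mem (linI_pow_homog p m) hf d

end graded

/-- monomials with a large exponent in the variables `x_1, …, x_n` -/
theorem mem_span_pow {F : MvPolynomial (Fin (n + 1)) k} {d m : ℕ} (hF : F.IsHomogeneous d)
    (h : ∀ c ∈ F.support, c 0 + m ≤ d) :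
    F ∈ (Ideal.span (Set.range (fun i : Fin n => (X i.succ : MvPolynomial (Fin (n + 1)) k)))) ^ m := by
  classical
  rw [F.as_sum]
  apply Ideal.sum_mem
  intro c hc
  rw [monomial_eq, Finsupp.prod_fintype _ _ (by simp), Fin.prod_univ_succ]
  apply Ideal.mul_mem_left
  apply Ideal.mul_mem_left
  have h1 : ∏ i : Fin n, (X i.succ : MvPolynomial (Fin (n + 1)) k) ^ c i.succ ∈
      ∏ i : Fin n, (Ideal.span (Set.range (fun i : Fin n =>
        (X i.succ : MvPolynomial (Fin (n + 1)) k)))) ^ (c i.succ) := by
    apply Ideal.prod_mem_prod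
    intro i _
    exact Ideal.pow_mem_pow (Ideal.subset_span (Set.mem_range_self i)) _
  rw [Finset.prod_pow_eq_pow_sum] at h1
  refine Ideal.pow_le_pow_right ?_ h1
  have h2 := h c hc
  have h3 : c.degree = d := by
    have := hF (mem_support_iff.1 hc)
    rwa [Finsupp.degree_eq_weight_one]
  rw [Finsupp.degree_eq_sum, Fin.sum_univ_succ] at h3
  omega

theorem mem_linI_pow {F : MvPolynomial (Fin (n + 1)) k} {d m : ℕ} (hF : F.IsHomogeneous d)
    {p : Fin (n + 1) → k} (hp : p ≠ 0) (h : F ∈ mI p ^ m) : F ∈ linI p ^ m := by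
  obtain ⟨e, he⟩ := t_CE k n p hp
  have hs := t_SU k (n + 1) e
  have hr := t_SU k (n + 1) e.symm
  obtain ⟨-, s2, -, s4, -, s6⟩ := hs
  obtain ⟨-, r2, r3, -, -, -⟩ := hr
  have h1 : sub e F ∈ mI (e0 k n) ^ m := by
    rw [s4, he]
    exact h
  have h2 := (t_OE k n d m (sub e F) (s2 F d hF)).1 h1
  have h3 := mem_span_pow (s2 F d hF) h2
  have h4 : (sub e.symm) (sub e F) ∈ Ideal.map (sub e.symm).toRingHom
      ((Ideal.span (Set.range (fun i : Fin n =>
        (X i.succ : MvPolynomial (Fin (n + 1)) k)))) ^ m) := Ideal.mem_map_of_mem _ h3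
  rw [s6, Ideal.map_pow, Ideal.map_span] at h4
  refine Ideal.pow_right_mono ?_ m h4
  rw [Ideal.span_le]
  rintro _ ⟨_, ⟨i, rfl⟩, rfl⟩
  apply Ideal.subset_span
  refine ⟨r2 _ 1 (isHomogeneous_X k _), ?_⟩
  change eval p (sub e.symm (X i.succ)) = 0
  rw [r3, eval_X, ← he, LinearEquiv.symm_apply_apply]
  simp [e0]

theorem linI_le_ker (p : Fin (n + 1) → k) :
    linI p ≤ RingHom.ker (eval₂Hom (Polynomial.C : k →+* Polynomial k)
      (fun i => Polynomial.C (p i) * Polynomial.X)) := by
  unfold linI
  rw [Ideal.span_le]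
  rintro l ⟨hl, hl0⟩
  change eval₂Hom (Polynomial.C : k →+* Polynomial k)
      (fun i => Polynomial.C (p i) * Polynomial.X) l = 0
  have key : ∀ (d : ℕ) (F : MvPolynomial (Fin (n + 1)) k), F.IsHomogeneous d →
      eval₂Hom (Polynomial.C : k →+* Polynomial k)
        (fun i => Polynomial.C (p i) * Polynomial.X) F =
      Polynomial.C (eval p F) * Polynomial.X ^ d := by
    intro d F hF
    rw [coe_eval₂Hom, eval₂_eq', eval_eq', map_sum, Finset.sum_mul]
    apply Finset.sum_congr rfl
    intro c hc
    rw [map_mul, map_prod, mul_assoc]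
    congr 1
    have h3 : c.degree = d := by
      have := hF (mem_support_iff.1 hc)
      rwa [Finsupp.degree_eq_weight_one]
    rw [← h3, Finsupp.degree_eq_sum, ← Finset.prod_pow_eq_pow_sum, ← Finset.prod_mul_distrib]
    apply Finset.prod_congr rfl
    intro i _
    rw [mul_pow, map_pow]
  rw [key 1 l hl, hl0, map_zero, zero_mul]

theorem eval2_homog (p : Fin (n + 1) → k) (d : ℕ) (F : MvPolynomial (Fin (n + 1)) k)
    (hF : F.IsHomogeneous d) :
      eval₂Hom (Polynomial.C : k →+* Polynomial k)
        (fun i => Polynomial.C (p i) * Polynomial.X) F =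
      Polynomial.C (eval p F) * Polynomial.X ^ d := by
  rw [coe_eval₂Hom, eval₂_eq', eval_eq', map_sum, Finset.sum_mul]
  apply Finset.sum_congr rfl
  intro c hc
  rw [map_mul, map_prod, mul_assoc]
  congr 1
  have h3 : c.degree = d := by
    have := hF (mem_support_iff.1 hc)
    rwa [Finsupp.degree_eq_weight_one]
  rw [← h3, Finsupp.degree_eq_sum, ← Finset.prod_pow_eq_pow_sum, ← Finset.prod_mul_distrib]
  apply Finset.prod_congr rfl
  intro i _
  rw [mul_pow, map_pow]

theorem ker_le_linI {p : Fin (n + 1) → k} (hp : p ≠ 0) :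
    RingHom.ker (eval₂Hom (Polynomial.C : k →+* Polynomial k)
      (fun i => Polynomial.C (p i) * Polynomial.X)) ≤ linI p := by
  intro f hf
  rw [RingHom.mem_ker] at hf
  have h1 : ∀ d, eval p (homogeneousComponent d f) = 0 := by
    intro d
    have h2 : eval₂Hom (Polynomial.C : k →+* Polynomial k)
        (fun i => Polynomial.C (p i) * Polynomial.X) f =
        ∑ i ∈ Finset.range (f.totalDegree + 1),
          Polynomial.C (eval p (homogeneousComponent i f)) * Polynomial.X ^ i := by
      conv_lhs => rw [← sum_homogeneousComponent f]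
      rw [map_sum]
      apply Finset.sum_congr rfl
      intro i _
      exact eval2_homog p i _ (homogeneousComponent_isHomogeneous i f)
    rw [hf] at h2
    by_cases hd : d < f.totalDegree + 1
    · have h3 := congrArg (fun q => Polynomial.coeff q d) h2
      simp only [Polynomial.coeff_zero, Polynomial.finsetSum_coeff, Polynomial.coeff_C_mul,
        Polynomial.coeff_X_pow, mul_ite, mul_one, mul_zero] at h3
      rw [Finset.sum_ite_eq] at h3
      rw [if_pos (Finset.mem_range.2 hd)] at h3
      exact h3.symm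
    · rw [homogeneousComponent_eq_zero d f (by omega), map_zero]
  rw [← sum_homogeneousComponent f]
  apply Ideal.sum_mem
  intro i _
  have h2 : homogeneousComponent i f ∈ mI p ^ 1 := by
    rw [pow_one]
    exact h1 i
  have := mem_linI_pow (homogeneousComponent_isHomogeneous i f) hp h2
  rwa [pow_one] at this

theorem ker_eq_linI {p : Fin (n + 1) → k} (hp : p ≠ 0) :
    RingHom.ker (eval₂Hom (Polynomial.C : k →+* Polynomial k)
      (fun i => Polynomial.C (p i) * Polynomial.X)) = linI p :=
  le_antisymm (ker_le_linI hp) (linI_le_ker p)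

theorem span_eq_linI {p : Fin (n + 1) → k} (hp : p ≠ 0) :
    Ideal.span (Set.range (fun ij : Fin (n + 1) × Fin (n + 1) =>
      (X ij.1 * C (p ij.2) - X ij.2 * C (p ij.1) : MvPolynomial (Fin (n + 1)) k))) = linI p := by
  classical
  apply le_antisymm
  · rw [Ideal.span_le]
    rintro _ ⟨⟨i, j⟩, rfl⟩
    apply Ideal.subset_span
    constructor
    · have h1 := (isHomogeneous_X k i).mul (isHomogeneous_C (Fin (n + 1)) (p j))
      have h2 := (isHomogeneous_X k j).mul (isHomogeneous_C (Fin (n + 1)) (p i))
      exact h1.sub h2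
    · simp only [map_sub, map_mul, eval_X, eval_C]
      ring
  · unfold linI
    rw [Ideal.span_le]
    rintro l ⟨hl, hl0⟩
    obtain ⟨j, hj⟩ : ∃ j, p j ≠ 0 := by
      by_contra hcon
      push Not at hcon
      exact hp (funext hcon)
    -- `l = ∑ a_i X_i`
    have hl' : l = ∑ i, C (coeff (Finsupp.single i 1) l) * X i := by
      ext c
      rw [coeff_sum]
      by_cases hc : c.degree = 1
      · obtain ⟨i, rfl⟩ : ∃ i, c = Finsupp.single i 1 := by
          rw [Finsupp.degree_apply] at hc
          exact (Finsupp.sum_eq_one_iff c).1 hc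
        rw [Finset.sum_eq_single i]
        · rw [coeff_C_mul, coeff_X, if_pos rfl, mul_one]
        · intro b _ hb
          rw [coeff_C_mul, coeff_X, if_neg, mul_zero]
          intro h
          apply hb
          exact (Finsupp.single_left_inj one_ne_zero).1 h
        · intro h
          exact absurd (Finset.mem_univ i) h
      · rw [hl.coeff_eq_zero hc]
        symm
        apply Finset.sum_eq_zero
        intro i _
        rw [coeff_C_mul, coeff_X, if_neg, mul_zero]
        rintro rfl
        exact hc (by simp)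
    have h0 : ∑ i, coeff (Finsupp.single i 1) l * p i = 0 := by
      have := congrArg (eval p) hl'
      rw [hl0, map_sum] at this
      simpa using this.symm
    have h1 : C (p j) * l = ∑ i, C (coeff (Finsupp.single i 1) l) *
        (X i * C (p j) - X j * C (p i)) := by
      conv_lhs => rw [hl']
      have h2 : ∑ i, C (coeff (Finsupp.single i 1) l) * (X j * C (p i)) =
          (0 : MvPolynomial (Fin (n + 1)) k) := by
        have : ∑ i, C (coeff (Finsupp.single i 1) l) * (X j * C (p i)) =
          (X j * C (∑ i, coeff (Finsupp.single i 1) l * p i) : MvPolynomial (Fin (n + 1)) k) := by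
          rw [map_sum, Finset.mul_sum]
          apply Finset.sum_congr rfl
          intro i _
          rw [map_mul]
          ring
        rw [this, h0, map_zero, mul_zero]
      simp only [mul_sub, Finset.sum_sub_distrib]
      rw [h2, sub_zero, Finset.mul_sum]
      apply Finset.sum_congr rfl
      intro i _
      ring
    have h2 : l = C ((p j)⁻¹) * (C (p j) * l) := by
      rw [← mul_assoc, ← map_mul, inv_mul_cancel₀ hj, map_one, one_mul]
    rw [SetLike.mem_coe, h2, h1]
    apply Ideal.mul_mem_left
    apply Ideal.sum_mem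
    intro i _
    apply Ideal.mul_mem_left
    exact Ideal.subset_span ⟨(i, j), rfl⟩

/-- the part of top degree -/
theorem top_component {f : MvPolynomial (Fin (n + 1)) k} (hf : f ≠ 0) :
    homogeneousComponent f.totalDegree f ≠ 0 := by
  classical
  intro h
  have h1 : f.support.Nonempty := support_nonempty.2 hf
  obtain ⟨c, hc, hcd⟩ := Finset.exists_mem_eq_sup f.support h1 (fun s => s.sum fun _ e => e)
  have h2 : f.totalDegree = c.degree := by
    rw [Finsupp.degree_apply]
    exact hcd
  have h3 := congrArg (coeff c) h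
  rw [coeff_homogeneousComponent, if_pos h2.symm, coeff_zero] at h3
  exact (mem_support_iff.1 hc) h3

theorem linI_ne_bot (hn : 1 ≤ n) (p : Fin (n + 1) → k) :
    ∃ l ∈ linI p, l ≠ 0 := by
  classical
  have h2 : (X 0 * C (p ⟨1, by omega⟩) - X ⟨1, by omega⟩ * C (p 0) : MvPolynomial (Fin (n + 1)) k) ∈
      linI p := by
    apply Ideal.subset_span
    constructor
    · have h1 := (isHomogeneous_X k (0 : Fin (n + 1))).mul
        (isHomogeneous_C (Fin (n + 1)) (p ⟨1, by omega⟩))
      have h2 := (isHomogeneous_X k (⟨1, by omega⟩ : Fin (n + 1))).mul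
        (isHomogeneous_C (Fin (n + 1)) (p 0))
      exact h1.sub h2
    · simp only [map_sub, map_mul, eval_X, eval_C]
      ring
  have h10 : (⟨1, by omega⟩ : Fin (n + 1)) ≠ 0 := by
    intro h
    have := congrArg Fin.val h
    simp at this
  by_cases h0 : p 0 = 0
  · refine ⟨X 0, ?_, X_ne_zero 0⟩
    apply Ideal.subset_span
    exact ⟨isHomogeneous_X k _, by rw [eval_X, h0]⟩
  · refine ⟨_, h2, ?_⟩
    intro h
    have h3 := congrArg (coeff (Finsupp.single (⟨1, by omega⟩ : Fin (n + 1)) 1)) h
    rw [mul_comm _ (C _), mul_comm _ (C _), coeff_sub, coeff_C_mul, coeff_C_mul, coeff_X, coeff_X,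
      if_pos rfl, if_neg, coeff_zero, mul_zero, mul_one, zero_sub, neg_eq_zero] at h3
    · exact h0 h3
    · intro h4
      exact h10 ((Finsupp.single_left_inj one_ne_zero).1 h4).symm

theorem exists_mem_iInf (hn : 1 ≤ n) (S : Finset (Fin (n + 1) → k)) (_hS : ∀ p ∈ S, p ≠ 0)
    (w : (Fin (n + 1) → k) → ℕ) :
    ∃ f ∈ (⨅ p ∈ S, linI p ^ w p : Ideal (MvPolynomial (Fin (n + 1)) k)), f ≠ 0 := by
  classical
  choose l hl hl0 using fun p : Fin (n + 1) → k => linI_ne_bot hn p
  refine ⟨∏ p ∈ S, l p ^ w p, ?_, Finset.prod_ne_zero_iff.2 fun p _ => pow_ne_zero _ (hl0 p)⟩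
  rw [Submodule.mem_iInf]
  intro p
  rw [Submodule.mem_iInf]
  intro hp
  rw [← Finset.mul_prod_erase _ _ hp]
  exact Ideal.mul_mem_right _ _ (Ideal.pow_mem_pow (hl p) _)

end

end Pool.Agent.H737R3
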