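import Pool.Agent.H580C.CH.All

/-!
Demailly's inequality for fat point schemes.
-/

set_option autoImplicit false

universe u

namespace Pool.Agent.H737R3

open MvPolynomial Pool.Agent.Chud Pool.Agent.H580C

/-- Every nonzero form which vanishes to order at least `τ v` at every `v ∈ Z` has degree at
least `a`. -/
def LowW {k : Type u} [Field k] {σ : Type*} (Z : Set (σ → k)) (τ : (σ → k) → ℕ) (a : ℕ) : Prop :=
  ∀ (F : MvPolynomial σ k) (d : ℕ), F ≠ 0 → F.IsHomogeneous d → (∀ v ∈ Z, F ∈ mI v ^ τ v) → a ≤ d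

/-- lowering the degree -/
theorem lowW_add {k : Type u} [Field k] [IsAlgClosed k] {N t a : ℕ} {Z : Set (Fin N → k)}
    {w : (Fin N → k) → ℕ} (hw : ∃ z ∈ Z, 1 ≤ w z) (ht : 1 ≤ t)
    (hL : LowW Z (fun v => t * w v) a) (j : ℕ) : LowW Z (fun v => (t + j) * w v) (a + j) := by
  induction j with
  | zero => simpa using hL
  | succ j ih =>
    intro F d hF hd hv
    obtain ⟨z, hz, hwz⟩ := hw
    have h1 : (t + (j + 1)) * w z ≤ mu z F := (mem_mI_pow_iff z hF _).1 (hv z hz)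
    have h2 := mu_le_totalDegree z hF
    rw [hd.totalDegree hF] at h2
    have h3 : 1 ≤ (t + (j + 1)) * w z := Nat.mul_pos (by omega) hwz
    obtain ⟨G, hG, hGh, hGv⟩ := t_DL k N d F hF hd (by omega)
    have h4 := ih G (d - 1) hG hGh (by
      intro v hvZ
      rcases Nat.eq_zero_or_pos (w v) with h0 | h0
      · simp [h0]
      · refine hGv v _ (Ideal.pow_le_pow_right ?_ (hv v hvZ))
        have : (t + (j + 1)) * w v = (t + j) * w v + w v := by ring
        beta_reduce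
        omega)
    omega

/-- the basic lemma, with weights -/
theorem blW (k : Type u) [Field k] [IsAlgClosed k] (p e n d : ℕ) [Fact p.Prime] [CharP k p]
    (Z : Set (Fin (n + 1) → k)) (τ : (Fin (n + 1) → k) → ℕ) (F : MvPolynomial (Fin (n + 1)) k)
    (hZ : ∀ v ∈ Z, v 0 ≠ 0) (hF : F ≠ 0) (hFd : F.IsHomogeneous d)
    (hFm : ∀ v ∈ Z, F ∈ mI v ^ τ v) :
    ∃ (B d' : ℕ) (g : MvPolynomial (Fin (n + 1)) k), B ≤ n * (p ^ e - 1) ∧ g ≠ 0 ∧
      g.IsHomogeneous d' ∧ p ^ e * d' + B ≤ d ∧ ∀ v ∈ Z, τ v ≤ p ^ e * mu v g + B := by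
  have hp : p.Prime := Fact.out
  have hq : 0 < p ^ e := pow_pos hp.pos e
  have hHC := t_HC.{u}
  have hd0 : hd (0 : Fin (n + 1) →₀ ℕ) F = F := by
    ext c
    rw [hHC]
    simp
  obtain ⟨b, -, hb1, hb2, hb3, hb4⟩ := p_MX k p e (n + 1) {i | i ≠ 0} F 0
    (fun i => hq) (fun i _ => rfl) (by rw [hd0]; exact hF)
  have hb0 : b 0 = 0 := hb2 0 (by simp)
  have hBd : b.degree ≤ d := by
    obtain ⟨c, hc⟩ := MvPolynomial.ne_zero_iff.1 hb3
    rw [hHC] at hc
    have hc' : coeff (c + b) F ≠ 0 := right_ne_zero_of_mul hc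
    have := hFd hc'
    rw [Pi.one_def] at this
    have h2 : (c + b).degree = d := by
      rw [Finsupp.degree_eq_weight_one]
      exact this
    rw [map_add] at h2
    omega
  obtain ⟨c, d', G, -, hG2, hG3, hG4, -⟩ := t_RT k p e (n + 1) (d - b.degree) 0 (hd b F) hb3
    (p_HH k (n + 1) b d F hFd) hb4
  have hG0 : G ≠ 0 := by
    intro h
    apply hb3
    rw [hG4, h, zero_pow hq.ne', mul_zero]
  refine ⟨b.degree, d', G, BL_degree_le b hb1 hb0, hG0, hG2, by omega, ?_⟩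
  intro v hv
  have h1 := t_HM k (n + 1) b v (τ v) F (hFm v hv)
  rw [mem_mI_pow_iff v hb3] at h1
  have hX0 : (X 0 : MvPolynomial (Fin (n + 1)) k) ≠ 0 := X_ne_zero 0
  have hmuX : mu v (X 0 : MvPolynomial (Fin (n + 1)) k) = 0 := by
    have h := mu_pos_iff v hX0
    rw [eval_X] at h
    by_contra hne
    exact hZ v hv (h.1 (Nat.pos_of_ne_zero hne))
  rw [hG4, mu_mul v (pow_ne_zero _ hX0) (pow_ne_zero _ hG0), BL_mu_pow v hX0, BL_mu_pow v hG0,
    hmuX, mul_zero, zero_add] at h1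
  omega

/-- forms with large orders, for sets outside the hyperplane `x_0 = 0` -/
theorem cpW_star (k : Type u) [Field k] [IsAlgClosed k] (p : ℕ)
    [Fact p.Prime] [CharP k p] (n t a : ℕ) (Z : Set (Fin (n + 1) → k))
    (w : (Fin (n + 1) → k) → ℕ) (hn : 1 ≤ n) (ht : 1 ≤ t)
    (hw : ∃ z ∈ Z, 1 ≤ w z) (hZ0 : ∀ v ∈ Z, v 0 ≠ 0) (hL : LowW Z (fun v => t * w v) a) (e D : ℕ)
    (F : MvPolynomial (Fin (n + 1)) k) (hF0 : F ≠ 0) (hF : F.IsHomogeneous D)
    (hFv : ∀ v ∈ Z, F ∈ mI v ^ (p ^ e * (t + n - 1) * w v)) : p ^ e * (a + n - 1) ≤ D := by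
  obtain ⟨B, d', g, hB, hg0, hg, hD, hmu⟩ :=
    blW k p e n D Z (fun v => p ^ e * (t + n - 1) * w v) F hZ0 hF0 hF hFv
  have hq : 1 ≤ p ^ e := Nat.one_le_pow _ _ (Fact.out : p.Prime).pos
  obtain ⟨n, rfl⟩ : ∃ n', n = n' + 1 := ⟨n - 1, by omega⟩
  obtain ⟨t, rfl⟩ : ∃ t', t = t' + 1 := ⟨t - 1, by omega⟩
  have e1 : t + 1 + (n + 1) - 1 = t + 1 + n := by omega
  have e2 : a + (n + 1) - 1 = a + n := by omega
  rw [e1] at hmu
  rw [e2]
  set q := p ^ e with hqdef
  set j := B / q with hj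
  have hj1 : q * j ≤ B := Nat.mul_div_le B q
  have hj2 : B < q * (j + 1) := Nat.lt_mul_div_succ B (by omega)
  have hjn : j ≤ n := by
    by_contra hcon
    have h1 : q * (n + 1) ≤ q * j := Nat.mul_le_mul_left _ (by omega)
    have h2 : (n + 1) * (q - 1) < q * (n + 1) := by
      rw [mul_comm q]
      exact Nat.mul_lt_mul_of_pos_left (by omega) (by omega)
    omega
  obtain ⟨i, hi⟩ := Nat.exists_eq_add_of_le hjn
  have hgv : ∀ v ∈ Z, g ∈ mI v ^ ((t + 1 + i) * w v) := by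
    intro v hv
    rw [mem_mI_pow_iff v hg0]
    rcases Nat.eq_zero_or_pos (w v) with h0 | h0
    · simp [h0]
    · by_contra hcon
      push Not at hcon
      have h1 := hmu v hv
      have h2 : j ≤ j * w v := Nat.le_mul_of_pos_right j h0
      have h3 : mu v g + 1 + j ≤ (t + 1 + n) * w v := by
        have : (t + 1 + n) * w v = (t + 1 + i) * w v + j * w v := by rw [hi]; ring
        omega
      have h4 : q * (mu v g + 1 + j) ≤ q * ((t + 1 + n) * w v) := Nat.mul_le_mul_left _ h3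
      have h5 : q * (mu v g + 1 + j) = q * mu v g + q * (j + 1) := by ring
      have h6 : q * ((t + 1 + n) * w v) = q * (t + 1 + n) * w v := by ring
      omega
  have haj := lowW_add hw ht hL i g d' hg0 hg hgv
  have h4 : q * (a + i) ≤ q * d' := Nat.mul_le_mul_left _ haj
  have h5 : q * (a + n) = q * (a + i) + q * j := by rw [hi]; ring
  omega

/-- sets outside the hyperplane `x_0 = 0` -/
theorem cpW_core (k : Type u) [Field k] [IsAlgClosed k] (p : ℕ)
    [Fact p.Prime] [CharP k p] (n t a m d : ℕ) (Z : Set (Fin (n + 1) → k))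
    (w : (Fin (n + 1) → k) → ℕ) (hn : 1 ≤ n) (ht : 1 ≤ t)
    (hw : ∃ z ∈ Z, 1 ≤ w z) (hZ0 : ∀ v ∈ Z, v 0 ≠ 0) (hL : LowW Z (fun v => t * w v) a)
    (F : MvPolynomial (Fin (n + 1)) k) (hF0 : F ≠ 0) (hF : F.IsHomogeneous d)
    (hFv : ∀ v ∈ Z, F ∈ mI v ^ (m * w v)) : m * (a + n - 1) ≤ d * (t + n - 1) := by
  by_contra hcon
  rw [not_le] at hcon
  have hm : 1 ≤ m := by
    rcases Nat.eq_zero_or_pos m with h | h
    · subst h
      omega
    · exact h
  have hp := (Fact.out : p.Prime).one_lt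
  have hq : d * m < p ^ (d * m) := Nat.lt_pow_self hp
  set e := d * m with he
  set q := p ^ e with hqd
  set s := t + n - 1 with hs
  set b := a + n - 1 with hb
  set M := (q * s + m - 1) / m with hM
  have hM1 : M * m ≤ q * s + m - 1 := Nat.div_mul_le_self _ _
  have hM2 : q * s ≤ M * m := by
    have h1 : q * s + m - 1 < m * (M + 1) := by
      rw [hM]
      exact Nat.lt_mul_div_succ _ (by omega)
    have h2 : m * (M + 1) = M * m + m := by ring
    omega
  have h1 := cpW_star k p n t a Z w hn ht hw hZ0 hL e (d * M) (F ^ M) (pow_ne_zero _ hF0)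
    (hF.pow M) (by
      intro v hv
      have h2 : F ^ M ∈ (mI v ^ (m * w v)) ^ M := Ideal.pow_mem_pow (hFv v hv) M
      rw [← pow_mul] at h2
      refine Ideal.pow_le_pow_right ?_ h2
      have h3 : m * w v * M = M * m * w v := by ring
      rw [h3]
      exact Nat.mul_le_mul_right _ hM2)
  have h2 : m * (q * b) ≤ m * (d * M) := Nat.mul_le_mul_left _ h1
  have h3 : d * (M * m) ≤ d * (q * s + m - 1) := Nat.mul_le_mul_left _ hM1
  obtain ⟨m', rfl⟩ : ∃ m', m = m' + 1 := ⟨m - 1, by omega⟩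
  have e3 : q * s + (m' + 1) - 1 = q * s + m' := by omega
  rw [e3] at h3
  obtain ⟨c, hc⟩ := Nat.exists_eq_add_of_lt hcon
  have h4 : q * ((m' + 1) * b) ≤ q * (d * s) + d * m' := by nlinarith
  rw [hc] at h4
  have h5 : q ≤ d * m' := by nlinarith
  have h6 : d * m' ≤ d * (m' + 1) := Nat.mul_le_mul_left _ (by omega)
  omega

/-- Demailly's inequality for fat points, positive characteristic -/
theorem cpW (k : Type u) [Field k] [IsAlgClosed k] (p : ℕ) [Fact p.Prime] [CharP k p]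
    (n t a m d : ℕ) (Z : Set (Fin (n + 1) → k)) (w : (Fin (n + 1) → k) → ℕ)
    (F : MvPolynomial (Fin (n + 1)) k)
    (hn : 1 ≤ n) (ht : 1 ≤ t) (hZ : Z.Finite) (hw : ∃ z ∈ Z, 1 ≤ w z) (hZ0 : ∀ v ∈ Z, v ≠ 0)
    (hL : LowW Z (fun v => t * w v) a)
    (hF0 : F ≠ 0) (hF : F.IsHomogeneous d) (hFv : ∀ v ∈ Z, F ∈ mI v ^ (m * w v)) :
    m * (a + n - 1) ≤ d * (t + n - 1) := by
  have : Infinite k := IsAlgClosed.instInfinite
  obtain ⟨e, he⟩ := t_CO k n Z hZ hZ0
  have hs := t_SU k (n + 1) e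
  have hr := t_SU k (n + 1) e.symm
  obtain ⟨s1, s2, -, s4, -, -⟩ := hs
  obtain ⟨r1, r2, -, r4, -, -⟩ := hr
  have hne : ∀ G : MvPolynomial (Fin (n + 1)) k, G ≠ 0 → sub e G ≠ 0 := by
    intro G hG h
    exact hG (s1 (by rw [h, map_zero]))
  have hne' : ∀ G : MvPolynomial (Fin (n + 1)) k, G ≠ 0 → sub e.symm G ≠ 0 := by
    intro G hG h
    exact hG (r1 (by rw [h, map_zero]))
  obtain ⟨z, hz, hwz⟩ := hw
  apply cpW_core k p n t a m d (e.symm '' Z) (fun u => w (e u)) hn ht _ _ _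
    (sub e F) (hne F hF0) (s2 F d hF)
  · rintro _ ⟨v, hv, rfl⟩
    rw [s4, LinearEquiv.apply_symm_apply]
    exact hFv v hv
  · exact ⟨e.symm z, ⟨z, hz, rfl⟩, by rw [LinearEquiv.apply_symm_apply]; exact hwz⟩
  · rintro _ ⟨v, hv, rfl⟩
    exact he v hv
  · intro G D hG0 hG hGv
    apply hL (sub e.symm G) D (hne' G hG0) (r2 G D hG)
    intro v hv
    rw [r4]
    have := hGv _ ⟨v, hv, rfl⟩
    beta_reduce at this
    rwa [LinearEquiv.apply_symm_apply] at this

end Pool.Agent.H737R3
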