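import Pool.Agent.H737R3.Fat

/-!
Demailly's inequality for fat point schemes: characteristic zero and arbitrary fields.
-/

set_option autoImplicit false

universe u

namespace Pool.Agent.H737R3

open MvPolynomial Pool.Agent.Chud Pool.Agent.H580C

/-- interpolation with weights -/
theorem tiW (K : Type u) [Field K] (n a : ℕ) (Z : Finset (Fin (n + 1) → K))
    (τ : (Fin (n + 1) → K) → ℕ)
    (hZ : LowW (Z : Set (Fin (n + 1) → K)) τ a) : ∀ d < a,
    ∃ lam : (Fin (n + 1) →₀ ℕ) → (Fin (n + 1) → K) → (Fin (n + 1) →₀ ℕ) → K,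
      ∀ m m' : Fin (n + 1) →₀ ℕ, m.degree = d → m'.degree = d →
        ∑ v ∈ Z, ∑ b ∈ bx (n + 1) (τ v),
          lam m v b * (((∏ i, (m' i).choose (b i) : ℕ) : K) * ∏ i, v i ^ (m' i - b i)) =
        if m = m' then 1 else 0 := by
  classical
  intro d hd'
  have hHV := t_HV.{u}
  have hHC := t_HC.{u}
  let I : Finset ((_ : Fin (n + 1) → K) × (Fin (n + 1) →₀ ℕ)) := Z.sigma (fun v => bx (n + 1) (τ v))
  let V := homogeneousSubmodule (Fin (n + 1)) K d
  let E : V →ₗ[K] (I → K) :=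
    { toFun := fun F i => eval i.1.1 (hd i.1.2 (F : MvPolynomial (Fin (n + 1)) K))
      map_add' := by
        intro F G
        ext i
        simp [map_add]
      map_smul' := by
        intro c F
        ext i
        simp [map_smul, MvPolynomial.smul_eval] }
  have hE : LinearMap.ker E = ⊥ := by
    rw [LinearMap.ker_eq_bot']
    intro F hF
    by_contra hne
    have hne' : (F : MvPolynomial (Fin (n + 1)) K) ≠ 0 := by
      intro h
      exact hne (Subtype.ext h)
    have := hZ F d hne' ((mem_homogeneousSubmodule d _).1 F.2) (by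
      intro v hv
      rw [(hHV K (n + 1) v F).2 (τ v)]
      intro b hb
      have hmem : (⟨v, b⟩ : (_ : Fin (n + 1) → K) × (Fin (n + 1) →₀ ℕ)) ∈ I :=
        Finset.mem_sigma.2 ⟨hv, (TI_mem_bx _ _ _).2 hb⟩
      exact congrFun hF ⟨⟨v, b⟩, hmem⟩)
    omega
  obtain ⟨R, hR⟩ := LinearMap.exists_leftInverse_of_injective E hE
  refine ⟨fun m v b => if h : (⟨v, b⟩ : (_ : Fin (n + 1) → K) × (Fin (n + 1) →₀ ℕ)) ∈ I then
    coeff m ((R (Pi.single ⟨⟨v, b⟩, h⟩ 1) : V) : MvPolynomial (Fin (n + 1)) K) else 0, ?_⟩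
  intro m m' hm hm'
  have hF : (monomial m' (1 : K)) ∈ V := by
    rw [mem_homogeneousSubmodule]
    exact isHomogeneous_monomial _ hm'
  have h1 : R (E ⟨_, hF⟩) = ⟨_, hF⟩ := by
    have := LinearMap.congr_fun hR ⟨_, hF⟩
    simpa using this
  have h2 : E ⟨_, hF⟩ = ∑ i : I, (E ⟨_, hF⟩ i) • (Pi.single i (1 : K) : I → K) := by
    ext j
    simp [Finset.sum_apply, Pi.single_apply]
  have h3 : coeff m ((R (E ⟨_, hF⟩) : V) : MvPolynomial (Fin (n + 1)) K) =
      ∑ i : I, (E ⟨_, hF⟩ i) *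
        coeff m ((R (Pi.single i 1) : V) : MvPolynomial (Fin (n + 1)) K) := by
    conv_lhs => rw [h2]
    rw [map_sum, Submodule.coe_sum, coeff_sum]
    apply Finset.sum_congr rfl
    intro i _
    rw [map_smul, Submodule.coe_smul, coeff_smul, smul_eq_mul]
  rw [h1] at h3
  have h4 : coeff m (monomial m' (1 : K)) = if m = m' then 1 else 0 := by
    rw [coeff_monomial]
    simp [eq_comm]
  have h5 : ∀ i : I, E ⟨_, hF⟩ i =
      (((∏ j, (m' j).choose (i.1.2 j) : ℕ) : K) * ∏ j, i.1.1 j ^ (m' j - i.1.2 j)) := by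
    intro i
    show eval i.1.1 (hd i.1.2 (monomial m' (1 : K))) = _
    rw [TI_hd_monomial hHC, eval_monomial, Finsupp.prod_fintype _ _ (by simp)]
    rfl
  show _ = _
  rw [← h4]
  refine Eq.trans ?_ h3.symm
  rw [Finset.sum_sigma' Z (fun v => bx (n + 1) (τ v)) (fun v b =>
    (if h : (⟨v, b⟩ : (_ : Fin (n + 1) → K) × (Fin (n + 1) →₀ ℕ)) ∈ I then
      coeff m ((R (Pi.single ⟨⟨v, b⟩, h⟩ 1) : V) : MvPolynomial (Fin (n + 1)) K) else 0) *
      (((∏ i, (m' i).choose (b i) : ℕ) : K) * ∏ i, v i ^ (m' i - b i)))]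
  change ∑ x ∈ I, _ = _
  rw [← Finset.sum_coe_sort I]
  apply Finset.sum_congr rfl
  intro i _
  rw [h5 i, mul_comm]
  congr 1
  have hi : (⟨(i : (_ : Fin (n + 1) → K) × (Fin (n + 1) →₀ ℕ)).1,
    (i : (_ : Fin (n + 1) → K) × (Fin (n + 1) →₀ ℕ)).2⟩ :
      (_ : Fin (n + 1) → K) × (Fin (n + 1) →₀ ℕ)) ∈ I := i.2
  rw [dif_pos hi]

/-- transfer to positive characteristic, with weights -/
theorem trW (K : Type u) [Field K] [CharZero K] (n a N : ℕ)
    (Z : Finset (Fin (n + 1) → K)) (τ : (Fin (n + 1) → K) → ℕ)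
    (L : Finset (MvPolynomial (Fin (n + 1)) K)) (D : Finset K)
    (hLow : LowW (Z : Set (Fin (n + 1) → K)) τ a) :
    ∃ (p : ℕ) (_ : Fact p.Prime) (k : Type) (_ : Field k) (_ : IsAlgClosed k) (_ : CharP k p)
      (A : Subring K) (φ : A →+* k), N < p ∧
      (∀ F ∈ L, ∀ m, coeff m F ∈ A) ∧ (∀ v ∈ Z, ∀ i, v i ∈ A) ∧ (∀ x ∈ D, x ∈ A) ∧
      (∀ x ∈ D, x ≠ 0 → ∀ h : x ∈ A, φ ⟨x, h⟩ ≠ 0) ∧
      ∀ (Z' : Set (Fin (n + 1) → k)) (τ' : (Fin (n + 1) → k) → ℕ),
        (∀ v ∈ Z, ∃ h : ∀ i, v i ∈ A, (fun i => φ ⟨v i, h i⟩) ∈ Z' ∧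
          τ v ≤ τ' (fun i => φ ⟨v i, h i⟩)) → LowW Z' τ' a := by
  classical
  have hHV := t_HV.{0}
  have hHC := t_HC.{0}
  choose! lam hlam using tiW K n a Z τ hLow
  set T : Finset K := ((Finset.range a).biUnion fun d =>
      ((Finset.univ : Finset (Fin (n + 1))).finsuppAntidiag d).biUnion fun m =>
        Z.biUnion fun v => (bx (n + 1) (τ v)).image fun b => lam d m v b) ∪
      ((Z.biUnion fun v => (Finset.univ : Finset (Fin (n + 1))).image fun i => v i) ∪
      ((L.biUnion fun F => F.support.image fun m => coeff m F) ∪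
      (D ∪ D.image (fun x => x⁻¹)))) with hT
  obtain ⟨p, hp, k, ik, ia, ic, hN, ⟨φ⟩⟩ := t_RD K T N
  set A : Subring K := (Algebra.adjoin ℤ (T : Set K)).toSubring with hA
  have hTA : ∀ x ∈ T, x ∈ A := fun x hx => Algebra.subset_adjoin hx
  set ψ : A →+* k := φ.comp (A.subtype.codRestrict (Algebra.adjoin ℤ (T : Set K))
    (fun x => x.2)) with hψ
  have m1 : ∀ d < a, ∀ m : Fin (n + 1) →₀ ℕ, m.degree = d → ∀ v ∈ Z, ∀ b ∈ bx (n + 1) (τ v),
      lam d m v b ∈ A := by
    intro d hd m hm v hv b hb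
    apply hTA
    rw [hT]
    refine Finset.mem_union_left _ (Finset.mem_biUnion.2 ⟨d, Finset.mem_range.2 hd, ?_⟩)
    refine Finset.mem_biUnion.2 ⟨m, (TR_mem_anti _ _).2 hm, ?_⟩
    exact Finset.mem_biUnion.2 ⟨v, hv, Finset.mem_image.2 ⟨b, hb, rfl⟩⟩
  have m2 : ∀ v ∈ Z, ∀ i, v i ∈ A := by
    intro v hv i
    apply hTA
    rw [hT]
    refine Finset.mem_union_right _ (Finset.mem_union_left _ ?_)
    exact Finset.mem_biUnion.2 ⟨v, hv, Finset.mem_image.2 ⟨i, Finset.mem_univ _, rfl⟩⟩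
  have m3 : ∀ F ∈ L, ∀ m, coeff m F ∈ A := by
    intro F hF m
    by_cases hm : m ∈ F.support
    · apply hTA
      rw [hT]
      refine Finset.mem_union_right _ (Finset.mem_union_right _ (Finset.mem_union_left _ ?_))
      exact Finset.mem_biUnion.2 ⟨F, hF, Finset.mem_image.2 ⟨m, hm, rfl⟩⟩
    · rw [notMem_support_iff.1 hm]
      exact A.zero_mem
  have m4 : ∀ x ∈ D, x ∈ A ∧ x⁻¹ ∈ A := by
    intro x hx
    constructor
    · apply hTA
      rw [hT]
      refine Finset.mem_union_right _ (Finset.mem_union_right _ (Finset.mem_union_right _ ?_))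
      exact Finset.mem_union_left _ hx
    · apply hTA
      rw [hT]
      refine Finset.mem_union_right _ (Finset.mem_union_right _ (Finset.mem_union_right _ ?_))
      exact Finset.mem_union_right _ (Finset.mem_image.2 ⟨x, hx, rfl⟩)
  refine ⟨p, hp, k, ik, ia, ic, A, ψ, hN, m3, m2, fun x hx => (m4 x hx).1, ?_, ?_⟩
  · intro x hx hx0 h h0
    have e : (⟨x, h⟩ : A) * ⟨x⁻¹, (m4 x hx).2⟩ = 1 := by
      apply Subtype.ext
      exact mul_inv_cancel₀ hx0
    have e2 := congrArg ψ e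
    rw [map_mul, h0, zero_mul, map_one] at e2
    exact zero_ne_one e2
  · intro Z' τ' hZ' G d' hG0 hG hv
    by_contra hlt
    push Not at hlt
    apply hG0
    ext m
    rw [coeff_zero]
    by_cases hm : m.degree = d'
    swap
    · exact hG.coeff_eq_zero hm
    -- the images of the data
    have key : ∀ m' : Fin (n + 1) →₀ ℕ, m'.degree = d' →
        ∑ v ∈ Z.attach, ∑ b ∈ (bx (n + 1) (τ v.1)).attach,
          ψ ⟨lam d' m v.1 b.1, m1 d' hlt m hm v.1 v.2 b.1 b.2⟩ *
            (((∏ i, (m' i).choose (b.1 i) : ℕ) : k) *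
              ∏ i, ψ ⟨v.1 i, m2 v.1 v.2 i⟩ ^ (m' i - b.1 i)) =
        if m = m' then 1 else 0 := by
      intro m' hm'
      have h := hlam d' hlt m m' hm hm'
      have hA' : ∑ v ∈ Z.attach, ∑ b ∈ (bx (n + 1) (τ v.1)).attach,
          (⟨lam d' m v.1 b.1, m1 d' hlt m hm v.1 v.2 b.1 b.2⟩ : A) *
            (((∏ i, (m' i).choose (b.1 i) : ℕ) : A) *
              ∏ i, (⟨v.1 i, m2 v.1 v.2 i⟩ : A) ^ (m' i - b.1 i)) =
          if m = m' then 1 else 0 := by
        apply Subtype.ext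
        have e1 : ((if m = m' then 1 else 0 : A) : K) = if m = m' then 1 else 0 := by
          split_ifs <;> rfl
        rw [e1, ← h]
        rw [← Finset.sum_attach Z]
        push_cast
        refine Finset.sum_congr rfl fun v _ => ?_
        rw [← Finset.sum_attach (bx (n + 1) (τ v.1))]
      have h3 := congrArg ψ hA'
      rw [map_sum] at h3
      have e2 : ψ (if m = m' then 1 else 0) = if m = m' then 1 else 0 := by
        split_ifs
        · exact map_one ψ
        · exact map_zero ψ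
      rw [e2] at h3
      rw [← h3]
      refine Finset.sum_congr rfl fun v _ => ?_
      rw [map_sum]
      refine Finset.sum_congr rfl fun b _ => ?_
      rw [map_mul, map_mul, map_natCast, map_prod]
      simp only [map_pow]
    have hsum : coeff m G = ∑ m' ∈ (Finset.univ : Finset (Fin (n + 1))).finsuppAntidiag d',
        (if m = m' then 1 else 0) * coeff m' G := by
      rw [Finset.sum_eq_single m]
      · rw [if_pos rfl, one_mul]
      · intro m' _ hne
        rw [if_neg (Ne.symm hne), zero_mul]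
      · intro h
        exact absurd ((TR_mem_anti _ _).2 hm) h
    rw [hsum]
    have h4 : ∀ m' ∈ (Finset.univ : Finset (Fin (n + 1))).finsuppAntidiag d',
        ((if m = m' then 1 else 0 : k)) * coeff m' G =
        ∑ v ∈ Z.attach, ∑ b ∈ (bx (n + 1) (τ v.1)).attach,
          ψ ⟨lam d' m v.1 b.1, m1 d' hlt m hm v.1 v.2 b.1 b.2⟩ *
            ((((∏ i, (m' i).choose (b.1 i) : ℕ) : k) *
              ∏ i, ψ ⟨v.1 i, m2 v.1 v.2 i⟩ ^ (m' i - b.1 i)) * coeff m' G) := by
      intro m' hm'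
      rw [← key m' ((TR_mem_anti _ _).1 hm'), Finset.sum_mul]
      refine Finset.sum_congr rfl fun v _ => ?_
      rw [Finset.sum_mul]
      refine Finset.sum_congr rfl fun b _ => ?_
      rw [mul_assoc]
    rw [Finset.sum_congr rfl h4, Finset.sum_comm]
    refine Finset.sum_eq_zero fun v _ => ?_
    rw [Finset.sum_comm]
    refine Finset.sum_eq_zero fun b _ => ?_
    rw [← Finset.mul_sum]
    obtain ⟨hv1, hv2, hv3⟩ := hZ' v.1 v.2
    have h5 := TR_eval_hd hHC k (n + 1) b.1 (fun i => ψ ⟨v.1 i, m2 v.1 v.2 i⟩) G d' hG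
    rw [← h5]
    have h6 := ((hHV k (n + 1) (fun i => ψ ⟨v.1 i, m2 v.1 v.2 i⟩) G).2 (τ v.1)).1
      (Ideal.pow_le_pow_right hv3 (hv _ hv2)) b.1 ((TR_mem_bx _ _).1 b.2)
    rw [h6, mul_zero]

/-- Demailly's inequality for fat points over algebraically closed fields -/
theorem cdW (k : Type u) [Field k] [IsAlgClosed k]
    (n t a m d : ℕ) (Z : Set (Fin (n + 1) → k)) (w : (Fin (n + 1) → k) → ℕ)
    (F : MvPolynomial (Fin (n + 1)) k)
    (hn : 1 ≤ n) (ht : 1 ≤ t) (hZf : Z.Finite) (hw : ∃ z ∈ Z, 1 ≤ w z) (hZ0 : ∀ v ∈ Z, v ≠ 0)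
    (hlow : LowW Z (fun v => t * w v) a)
    (hF0 : F ≠ 0) (hFh : F.IsHomogeneous d) (hFv : ∀ v ∈ Z, F ∈ mI v ^ (m * w v)) :
    m * (a + n - 1) ≤ d * (t + n - 1) := by
  classical
  obtain ⟨p, hp⟩ := CharP.exists k
  rcases CharP.char_is_prime_or_zero k p with hpp | hp0
  · have : Fact p.Prime := ⟨hpp⟩
    exact cpW k p n t a m d Z w F hn ht hZf hw hZ0 hlow hF0 hFh hFv
  · subst hp0
    have : CharZero k := CharP.charP_to_charZero k
    have hlow' : LowW ((hZf.toFinset : Finset (Fin (n + 1) → k)) : Set (Fin (n + 1) → k))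
        (fun v => t * w v) a := by
      rw [Set.Finite.coe_toFinset]
      exact hlow
    obtain ⟨p, hp, k', _, _, _, A, φ, -, hL, hZA, hDA, hDφ, hlowT⟩ :=
      trW k n a 0 hZf.toFinset (fun v => t * w v) {F}
        ((hZf.toFinset.biUnion fun v => Finset.univ.image v) ∪
          F.support.image (fun m => coeff m F)) hlow'
    have hFA : ∀ m, coeff m F ∈ A := fun m => hL F (Finset.mem_singleton_self F) m
    have hvA : ∀ v ∈ Z, ∀ i, v i ∈ A := fun v hv i => hZA v (hZf.mem_toFinset.2 hv) i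
    set FA : MvPolynomial (Fin (n + 1)) A := ∑ m ∈ F.support, monomial m ⟨coeff m F, hFA m⟩
      with hFAdef
    have hmapF : map A.subtype FA = F := by
      rw [hFAdef, map_sum]
      conv_rhs => rw [← support_sum_monomial_coeff F]
      apply Finset.sum_congr rfl
      intro m _
      rw [map_monomial]
      rfl
    have hcoeff : ∀ m, coeff m FA = ⟨coeff m F, hFA m⟩ := by
      intro m
      apply Subtype.ext
      have := congrArg (coeff m) hmapF
      rw [coeff_map] at this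
      exact this
    have hdegm : ∀ m ∈ F.support, m.degree = d := by
      intro m hm
      have := hFh (mem_support_iff.1 hm)
      rwa [Finsupp.degree_eq_weight_one]
    have hFAh : FA.IsHomogeneous d := by
      rw [hFAdef]
      apply IsHomogeneous.sum
      intro m hm
      exact isHomogeneous_monomial _ (hdegm m hm)
    obtain ⟨m₀, hm₀⟩ := support_nonempty.2 hF0
    have hF'0 : map φ FA ≠ 0 := by
      intro h0
      have h1 := congrArg (coeff m₀) h0
      rw [coeff_map, hcoeff, coeff_zero] at h1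
      refine hDφ (coeff m₀ F) ?_ (mem_support_iff.1 hm₀) (hFA m₀) h1
      rw [Finset.mem_union]
      right
      exact Finset.mem_image_of_mem _ hm₀
    let ψ : (Fin (n + 1) → k) → (Fin (n + 1) → k') := fun v =>
      if h : ∀ i, v i ∈ A then fun i => φ ⟨v i, h i⟩ else 0
    have hψ : ∀ v, ∀ hv : v ∈ Z, ψ v = fun i => φ ⟨v i, hvA v hv i⟩ := by
      intro v hv
      exact dif_pos (hvA v hv)
    -- the weights in positive characteristic
    let w' : (Fin (n + 1) → k') → ℕ := fun u =>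
      (hZf.toFinset.filter (fun v => ψ v = u)).sup w
    have hw' : ∀ v ∈ Z, w v ≤ w' (ψ v) := by
      intro v hv
      exact Finset.le_sup (f := w) (Finset.mem_filter.2 ⟨hZf.mem_toFinset.2 hv, rfl⟩)
    obtain ⟨z, hz, hwz⟩ := hw
    refine cpW k' p n t a m d (ψ '' Z) w' (map φ FA) hn ht (hZf.image _)
      ⟨ψ z, ⟨z, hz, rfl⟩, hwz.trans (hw' z hz)⟩ ?_ ?_ hF'0
      (hFAh.map φ) ?_
    · rintro w ⟨v, hv, rfl⟩ h0
      rw [hψ v hv] at h0
      obtain ⟨i, hi⟩ : ∃ i, v i ≠ 0 := by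
        by_contra hcon
        push Not at hcon
        exact hZ0 v hv (funext hcon)
      refine hDφ (v i) ?_ hi (hvA v hv i) (congrFun h0 i)
      rw [Finset.mem_union]
      left
      rw [Finset.mem_biUnion]
      exact ⟨v, hZf.mem_toFinset.2 hv, Finset.mem_image_of_mem _ (Finset.mem_univ i)⟩
    · apply hlowT
      intro v hv
      have hv' := hZf.mem_toFinset.1 hv
      refine ⟨hvA v hv', ⟨v, hv', hψ v hv'⟩, ?_⟩
      have := hw' v hv'
      rw [hψ v hv'] at this
      exact Nat.mul_le_mul_left _ this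
    · rintro u ⟨v, hv, rfl⟩
      have hne : (hZf.toFinset.filter (fun x => ψ x = ψ v)).Nonempty :=
        ⟨v, Finset.mem_filter.2 ⟨hZf.mem_toFinset.2 hv, rfl⟩⟩
      obtain ⟨x, hx, hxw⟩ := Finset.exists_mem_eq_sup _ hne w
      rw [Finset.mem_filter] at hx
      have hxZ := hZf.mem_toFinset.1 hx.1
      have e1 : w' (ψ v) = w x := hxw
      rw [e1, ← hx.2, hψ x hxZ]
      refine (t_MT t_HV A k k' A.subtype φ Subtype.val_injective (n + 1)
        (fun i => ⟨x i, hvA x hxZ i⟩) FA).1 (m * w x) ?_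
      rw [hmapF]
      exact hFv x hxZ

end Pool.Agent.H737R3
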