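import Pool.Agent.H737R3.Bridge
import Pool.Agent.H737R3.AnyField

/-!
Ideals of points and of fat point schemes of projective space, initial degrees, and Demailly's
inequality.
-/

set_option autoImplicit false

universe u

namespace Pool.Agent.H737R3

open MvPolynomial Filter Topology

/-- Projective space of dimension `N` over `K`: the lines through the origin of `K ^ (N + 1)`. -/
abbrev PP (K : Type*) [Field K] (N : ℕ) := Projectivization K (Fin (N + 1) → K)

/-- The homogeneous ideal `I(p)` of the point `p`: the ideal generated by the forms which vanish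
at `p`. -/
noncomputable def ptIdeal {K : Type*} [Field K] {N : ℕ} (p : PP K N) :
    Ideal (MvPolynomial (Fin (N + 1)) K) :=
  Ideal.span {F | (∃ d : ℕ, F.IsHomogeneous d) ∧ eval p.rep F = 0}

/-- The symbolic power `I^(m)` of the ideal `I` of the set of points `S`: the intersection of the
ideals `I(p)^m` for `p ∈ S`. -/
noncomputable def symPow {K : Type*} [Field K] {N : ℕ} (S : Finset (PP K N)) (m : ℕ) :
    Ideal (MvPolynomial (Fin (N + 1)) K) :=
  ⨅ p ∈ S, ptIdeal p ^ m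

/-- The ideal `I(Z)` of the fat point scheme `Z = ∑ Z(p) p`: the intersection of the
ideals `I(p)^(Z(p))`. -/
noncomputable def fatIdeal {K : Type*} [Field K] {N : ℕ} (Z : PP K N →₀ ℕ) :
    Ideal (MvPolynomial (Fin (N + 1)) K) :=
  ⨅ p ∈ Z.support, ptIdeal p ^ Z p

/-- `α(J)`: the least degree of a nonzero element of the ideal `J`. -/
noncomputable def alpha {K : Type*} [Field K] {N : ℕ} (J : Ideal (MvPolynomial (Fin (N + 1)) K)) :
    ℕ :=
  sInf {d | ∃ F ∈ J, F ≠ 0 ∧ F.totalDegree = d}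

/-- `α(J)` for homogeneous ideals: the least degree of a nonzero homogeneous element of `J`. -/
noncomputable def alphaH {K : Type*} [Field K] {N : ℕ}
    (J : Ideal (MvPolynomial (Fin (N + 1)) K)) : ℕ :=
  sInf {d | ∃ F ∈ J, F ≠ 0 ∧ F.IsHomogeneous d}

section

variable {K : Type u} [Field K] {N : ℕ}

/-- intersections of powers of ideals of points -/
noncomputable def wIdeal (S : Finset (PP K N)) (w : PP K N → ℕ) :
    Ideal (MvPolynomial (Fin (N + 1)) K) :=
  ⨅ p ∈ S, ptIdeal p ^ w p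

theorem mem_wIdeal {S : Finset (PP K N)} {w : PP K N → ℕ} {F : MvPolynomial (Fin (N + 1)) K} :
    F ∈ wIdeal S w ↔ ∀ p ∈ S, F ∈ ptIdeal p ^ w p := by
  unfold wIdeal
  simp only [Submodule.mem_iInf]

theorem ptIdeal_eq (p : PP K N) : ptIdeal p = linI p.rep := by
  apply le_antisymm
  · unfold ptIdeal
    rw [Ideal.span_le]
    rintro F ⟨⟨d, hF⟩, hF0⟩
    have h1 : F ∈ Pool.Agent.Chud.mI p.rep ^ 1 := by
      rw [pow_one]
      exact hF0
    have := mem_linI_pow hF p.rep_nonzero h1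
    rwa [pow_one] at this
  · unfold linI
    rw [Ideal.span_le]
    rintro F ⟨hF, hF0⟩
    exact Ideal.subset_span ⟨⟨1, hF⟩, hF0⟩

theorem mem_ptIdeal_pow {F : MvPolynomial (Fin (N + 1)) K} {d : ℕ} (hF : F.IsHomogeneous d)
    (p : PP K N) (m : ℕ) : F ∈ ptIdeal p ^ m ↔ F ∈ Pool.Agent.Chud.mI p.rep ^ m := by
  rw [ptIdeal_eq]
  exact ⟨fun h => Ideal.pow_right_mono (linI_le_mI _) m h, fun h => mem_linI_pow hF p.rep_nonzero h⟩

theorem wIdeal_component {S : Finset (PP K N)} {w : PP K N → ℕ}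
    {F : MvPolynomial (Fin (N + 1)) K} (h : F ∈ wIdeal S w) (d : ℕ) :
    homogeneousComponent d F ∈ wIdeal S w := by
  rw [mem_wIdeal] at h ⊢
  intro p hp
  have := h p hp
  rw [ptIdeal_eq] at this ⊢
  exact component_mem _ _ this d

theorem exists_mem_wIdeal (hN : 1 ≤ N) (S : Finset (PP K N)) (w : PP K N → ℕ) :
    ∃ F ∈ wIdeal S w, F ≠ 0 := by
  classical
  choose l hl hl0 using fun p : PP K N => linI_ne_bot hN p.rep
  refine ⟨∏ p ∈ S, l p ^ w p, ?_, Finset.prod_ne_zero_iff.2 fun p _ => pow_ne_zero _ (hl0 p)⟩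
  rw [mem_wIdeal]
  intro p hp
  rw [← Finset.mul_prod_erase _ _ hp, ptIdeal_eq]
  exact Ideal.mul_mem_right _ _ (Ideal.pow_mem_pow (hl p) _)

theorem alpha_wIdeal_spec (hN : 1 ≤ N) (S : Finset (PP K N)) (w : PP K N → ℕ) :
    ∃ F ∈ wIdeal S w, F ≠ 0 ∧ F.IsHomogeneous (alpha (wIdeal S w)) := by
  have hne : {d | ∃ F ∈ wIdeal S w, F ≠ 0 ∧ F.totalDegree = d}.Nonempty := by
    obtain ⟨F, hF, hF0⟩ := exists_mem_wIdeal hN S w
    exact ⟨_, F, hF, hF0, rfl⟩
  obtain ⟨F, hF, hF0, hFd⟩ := Nat.sInf_mem hne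
  refine ⟨homogeneousComponent F.totalDegree F, wIdeal_component hF _, top_component hF0, ?_⟩
  have := homogeneousComponent_isHomogeneous F.totalDegree F
  rwa [hFd] at this ⊢

theorem alpha_wIdeal_le {S : Finset (PP K N)} {w : PP K N → ℕ} {F : MvPolynomial (Fin (N + 1)) K}
    (hF : F ∈ wIdeal S w) (hF0 : F ≠ 0) : alpha (wIdeal S w) ≤ F.totalDegree :=
  Nat.sInf_le ⟨F, hF, hF0, rfl⟩

theorem alphaH_eq (hN : 1 ≤ N) (S : Finset (PP K N)) (w : PP K N → ℕ) :
    alphaH (wIdeal S w) = alpha (wIdeal S w) := by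
  obtain ⟨F, hF, hF0, hFh⟩ := alpha_wIdeal_spec hN S w
  apply le_antisymm
  · exact Nat.sInf_le ⟨F, hF, hF0, hFh⟩
  · have hne : {d | ∃ F ∈ wIdeal S w, F ≠ 0 ∧ F.IsHomogeneous d}.Nonempty := ⟨_, F, hF, hF0, hFh⟩
    obtain ⟨G, hG, hG0, hGh⟩ := Nat.sInf_mem hne
    have := alpha_wIdeal_le hG hG0
    rw [hGh.totalDegree hG0] at this
    exact this

open Classical in
/-- Demailly's inequality, with weights -/
theorem demailly_w (hN : 1 ≤ N) (S : Finset (PP K N)) (w : PP K N → ℕ)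
    (hw : ∃ p ∈ S, 1 ≤ w p) (t m : ℕ) (ht : 1 ≤ t) :
    m * (alpha (wIdeal S (fun p => t * w p)) + N - 1) ≤
      alpha (wIdeal S (fun p => m * w p)) * (t + N - 1) := by
  obtain ⟨F, hF, hF0, hFh⟩ := alpha_wIdeal_spec hN S (fun p => m * w p)
  let w' : (Fin (N + 1) → K) → ℕ := fun v =>
    if h : v ≠ 0 then w (Projectivization.mk K v h) else 0
  have hw' : ∀ p : PP K N, w' p.rep = w p := by
    intro p
    have h1 : w' p.rep = w (Projectivization.mk K p.rep p.rep_nonzero) := dif_pos p.rep_nonzero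
    rw [h1, Projectivization.mk_rep]
  rw [mem_wIdeal] at hF
  obtain ⟨q, hq, hwq⟩ := hw
  refine demailly_fat K N t _ m _ ((fun p : PP K N => p.rep) '' (S : Set (PP K N))) w' F hN ht
    (S.finite_toSet.image _) ⟨q.rep, ⟨q, hq, rfl⟩, by rw [hw']; exact hwq⟩ ?_ ?_ hF0 hFh ?_
  · rintro _ ⟨p, -, rfl⟩
    exact p.rep_nonzero
  · intro G d hG0 hG hGv
    have h1 : G ∈ wIdeal S (fun p => t * w p) := by
      rw [mem_wIdeal]
      intro p hp
      rw [mem_ptIdeal_pow hG]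
      have := hGv p.rep ⟨p, hp, rfl⟩
      beta_reduce at this
      rwa [hw'] at this
    have h2 := alpha_wIdeal_le h1 hG0
    rwa [hG.totalDegree hG0] at h2
  · rintro _ ⟨p, hp, rfl⟩
    beta_reduce
    rw [hw', ← mem_ptIdeal_pow hFh]
    exact hF p hp

theorem alpha_add_le (hN : 1 ≤ N) (S : Finset (PP K N)) (w : PP K N → ℕ) (a b : ℕ) :
    alpha (wIdeal S (fun p => (a + b) * w p)) ≤
      alpha (wIdeal S (fun p => a * w p)) + alpha (wIdeal S (fun p => b * w p)) := by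
  obtain ⟨F, hF, hF0, hFh⟩ := alpha_wIdeal_spec hN S (fun p => a * w p)
  obtain ⟨G, hG, hG0, hGh⟩ := alpha_wIdeal_spec hN S (fun p => b * w p)
  have h1 : F * G ∈ wIdeal S (fun p => (a + b) * w p) := by
    rw [mem_wIdeal] at hF hG ⊢
    intro p hp
    rw [add_mul, pow_add]
    exact Ideal.mul_mem_mul (hF p hp) (hG p hp)
  have h2 := alpha_wIdeal_le h1 (mul_ne_zero hF0 hG0)
  rwa [(hFh.mul hGh).totalDegree (mul_ne_zero hF0 hG0)] at h2

/-- the Waldschmidt constant exists -/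
theorem exists_limit (hN : 1 ≤ N) (S : Finset (PP K N)) (w : PP K N → ℕ) :
    ∃ c : ℝ, Tendsto (fun r : ℕ => (alpha (wIdeal S (fun p => r * w p)) : ℝ) / r) atTop (𝓝 c) := by
  have hsub : Subadditive (fun r : ℕ => (alpha (wIdeal S (fun p => r * w p)) : ℝ)) := by
    intro a b
    beta_reduce
    exact_mod_cast alpha_add_le hN S w a b
  refine ⟨_, hsub.tendsto_lim ⟨0, ?_⟩⟩
  rintro _ ⟨r, rfl⟩
  positivity

theorem real_of_nat {a b t m : ℕ} (hN : 1 ≤ N) (ht : 1 ≤ t) (hm : 1 ≤ m)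
    (h : m * (a + N - 1) ≤ b * (t + N - 1)) :
    ((a : ℝ) + N - 1) / ((t : ℝ) + N - 1) ≤ (b : ℝ) / m := by
  have hm0 : (0 : ℝ) < m := by exact_mod_cast hm
  have ht0 : (1 : ℝ) ≤ t := by exact_mod_cast ht
  have hN0 : (1 : ℝ) ≤ N := by exact_mod_cast hN
  have h0 : (0 : ℝ) < (t : ℝ) + N - 1 := by linarith
  rw [div_le_div_iff₀ h0 hm0]
  have key : ((m * (a + N - 1) : ℕ) : ℝ) ≤ ((b * (t + N - 1) : ℕ) : ℝ) := by exact_mod_cast h
  rw [Nat.cast_mul, Nat.cast_mul, Nat.cast_sub (by omega), Nat.cast_sub (by omega)] at key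
  push_cast at key
  linarith

end

end Pool.Agent.H737R3
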